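import Pool.Agent.Lib.MP_ca0971_gt.OT.Chn.List

/-!
# Project OT, Chn: the triangle
-/

set_option autoImplicit false

namespace Pool.Agent.Lib.MP_ca0971_gt.OT

open Finset Filter Topology

private theorem cb_adj : ∀ i j : Fin 3, Adj (finRotate 3) i j := by
  unfold Adj
  decide

/-- All edges are adjacent. -/
theorem sim_three (A B C : E) : SimL [A, B, C] := by
  intro i j h
  exact absurd (cb_adj i j) h

private theorem cb_val {N : ℕ} (c : Fin N) : kap N c.rev = - kap N c := by
  unfold kap
  rw [Fin.val_rev]
  have h := c.isLt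
  rw [Nat.cast_sub (by omega)]
  push_cast
  ring

/-- Symmetry of the quantum integer. -/
private theorem cb_br (N : ℕ) : ∑ c : Fin N, (2 : ℝ) ^ (kap N c * (-1)) = br N := by
  unfold br
  rw [← Equiv.sum_comp Fin.revPerm]
  refine Finset.sum_congr rfl fun c _ => ?_
  rw [Fin.revPerm_apply, cb_val]
  ring_nf

/-- State sum of a net without crossings whose cut points form one cycle. -/
private theorem cb_net {J X : Type} [Fintype J] [DecidableEq J] (N : ℕ) (nx : J → J) (g : J → ℝ)
    (ov un : X → J) (ep b : X → ℝ) (j0 : J)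
    (hcyc : ∀ s : J → Fin N, (∀ j, s (nx j) = s j) → ∀ j, s j = s j0) :
    netZ N nx g ∅ ov un ep b = ∑ c : Fin N, (2 : ℝ) ^ (kap N c * ∑ j, g j) := by
  unfold netZ
  symm
  refine Finset.sum_of_injOn (fun c : Fin N => fun _ : J => c) ?_ ?_ ?_ ?_
  · intro a _ b _ h
    exact congrFun h j0
  · intro a _
    simp
  · intro s _ hs
    have h1 : ¬ ∀ j, s (nx j) = s j := by
      intro h
      apply hs
      refine ⟨s j0, by simp, ?_⟩
      funext j
      exact (hcyc s h j).symm
    push Not at h1
    obtain ⟨j, hj⟩ := h1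
    rw [Finset.prod_eq_zero (Finset.mem_univ j) (i := j)
      (f := fun j => if (∀ x ∈ (∅ : Finset X), ov x ≠ j ∧ un x ≠ j) ∧ s (nx j) ≠ s j then (0 : ℝ)
        else 1)]
    · simp
    · rw [if_pos]
      exact ⟨by simp, hj⟩
  · intro c _
    simp only [ne_eq, not_true_eq_false, and_false, if_false, Finset.prod_const_one,
      Finset.prod_empty, mul_one]
    rw [← Real.rpow_sum_of_pos (by norm_num), Finset.mul_sum]

/-- The sum of the three exterior angles of a triangle. -/
private theorem cb_ang {x y z : ℂ} (hs : x + y + z = 0) (h : dt x y ≠ 0) :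
    turn (y / x) + turn (z / y) + turn (x / z) = 1 ∨
      turn (y / x) + turn (z / y) + turn (x / z) = -1 := by
  have hz : z = -(x + y) := by
    linear_combination hs
  have h1 : dt y z = dt x y := by
    rw [hz]
    simp only [dt, Complex.neg_re, Complex.neg_im, Complex.add_re, Complex.add_im]
    ring
  have h2 : dt x z = - dt x y := by
    rw [hz]
    simp only [dt, Complex.neg_re, Complex.neg_im, Complex.add_re, Complex.add_im]
    ring
  have h3 : dt y z ≠ 0 := by
    rw [h1]
    exact h
  have h4 : dt x z ≠ 0 := by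
    rw [h2]
    exact neg_ne_zero.2 h
  have h5 := turn_three h h4 h3
  have h6 := turn_neg h4
  rw [h1, h2] at h5
  rcases lt_or_gt_of_ne h with hd | hd
  · have e1 : sg1 (dt x y) = -1 := by
      unfold sg1
      rw [if_neg (not_lt.2 hd.le)]
    have e2 : sg1 (- dt x y) = 1 := by
      unfold sg1
      rw [if_pos (by linarith)]
    rw [e1, e2] at h5
    norm_num at h5
    right
    linarith
  · have e1 : sg1 (dt x y) = 1 := by
      unfold sg1
      rw [if_pos hd]
    have e2 : sg1 (- dt x y) = -1 := by
      unfold sg1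
      rw [if_neg (by linarith)]
    rw [e1, e2] at h5
    norm_num at h5
    left
    linarith

/-- No crossings; the three turnings have the same sign and add up to ± 1: with d1 + d2 + d3 = 0 and
dt d1 d2 = dt d2 d3 = dt d3 d1 ≠ 0. The state sum is the sum over c of 2^(± kap c) = br N (symmetry
c ↦ N - 1 - c). Use Dia.ZM_eq with M = 0 or directly Dia.Z: all empty pieces force the same colour. -/
theorem ZhL_three (A B C : E) (h : dt (B.1 - A.1) (C.1 - A.1) ≠ 0) (N : ℕ) :
    ZhL N [A, B, C] = br N := by
  show Zh (finRotate 3) (fun i : Fin 3 => [A, B, C].get i) N = br N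
  set v : Fin 3 → E := fun i : Fin 3 => [A, B, C].get i with hv
  have hC : (dia (finRotate 3) v).C = ∅ := by
    ext x
    simp only [dia, Finset.mem_filter, Finset.mem_univ, true_and, Finset.notMem_empty, iff_false]
    intro h1
    exact h1.1.1 (cb_adj x.1 x.2)
  have hP : ∀ i j, ¬ (dia (finRotate 3) v).Pas i j := by
    intro i j h1
    unfold Dia.Pas at h1
    rw [hC] at h1
    simp at h1
  have hO : (dia (finRotate 3) v).Ok := by
    refine ⟨fun i => ?_, fun i j h1 => ?_, fun i j k h1 => absurd h1 (hP i j), fun i j h1 => ?_⟩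
    · rw [hC]
      simp
    · rw [hC] at h1
      simp at h1
    · rw [hC] at h1
      simp at h1
  have hw : (dia (finRotate 3) v).w = 0 := by
    unfold Dia.w
    rw [hC]
    simp
  have hV : (dia (finRotate 3) v).Val 0 (fun _ _ => 0) :=
    ⟨fun i j h1 => absurd h1 (hP i j), fun i j l h1 => absurd h1 (hP i j)⟩
  unfold Zh Dia.Zh
  rw [hw, ← Dia.ZM_eq (finRotate 3) N 0 _ hO _ hV]
  unfold Dia.ZM
  rw [hC, cb_net N _ _ _ _ _ _ (0, 0)]
  · have e : ∑ j : Fin 3 × Fin (0 + 1), (if j.2 = 0 then
        (dia (finRotate 3) v).th ((finRotate 3).symm j.1) else 0) =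
        turn ((C.1 - B.1) / (B.1 - A.1)) + turn ((A.1 - C.1) / (C.1 - B.1)) +
          turn ((B.1 - A.1) / (A.1 - C.1)) := by
      rw [Fintype.sum_prod_type]
      have e1 : ∀ i : Fin 3, ∑ j : Fin (0 + 1), (if (i, j).2 = 0 then
        (dia (finRotate 3) v).th ((finRotate 3).symm (i, j).1) else 0) =
          (dia (finRotate 3) v).th ((finRotate 3).symm i) := by
        intro i
        simp
      rw [Finset.sum_congr rfl fun i _ => e1 i,
        Equiv.sum_comp (finRotate 3).symm (dia (finRotate 3) v).th, Fin.sum_univ_three]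
      have r0 : finRotate 3 0 = 1 := by decide
      have r1 : finRotate 3 1 = 2 := by decide
      have r2 : finRotate 3 2 = 0 := by decide
      simp only [dia, dd, r0, r1, r2]
      rfl
    rw [e]
    rcases cb_ang (x := B.1 - A.1) (y := C.1 - B.1) (z := A.1 - C.1) (by ring) (by
      have : dt (B.1 - A.1) (C.1 - B.1) = dt (B.1 - A.1) (C.1 - A.1) := by
        simp only [dt, Complex.sub_re, Complex.sub_im]
        ring
      rw [this]
      exact h) with h1 | h1
    · rw [h1]
      simp [br]
    · rw [h1, cb_br]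
      simp
  · intro s hs j
    have hs' : ∀ i : Fin 3, s (finRotate 3 i, 0) = s (i, 0) := by
      intro i
      have := hs (i, 0)
      simpa [gnx] using this
    have h0 := hs' 0
    have h1 := hs' 1
    have r0 : finRotate 3 0 = 1 := by decide
    have r1 : finRotate 3 1 = 2 := by decide
    rw [r0] at h0
    rw [r1] at h1
    obtain ⟨i, a⟩ := j
    have ha : a = 0 := Fin.ext (by have := a.isLt; omega)
    subst ha
    fin_cases i
    · rfl
    · exact h0
    · exact h1.trans h0

end Pool.Agent.Lib.MP_ca0971_gt.OT
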