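import Pool.Agent.Lib.MP_ca0971_gt.OT.Cor.Rei
import Pool.Agent.Lib.MP_ca0971_gt.OT.Tri.Main
import Pool.Agent.Lib.MP_ca0971_gt.OT.TopDefs

/-!
# Project OT, Chn: closed polygons as lists
-/

set_option autoImplicit false

namespace Pool.Agent.Lib.MP_ca0971_gt.OT

open Finset Filter Topology

/-- The polygon is embedded in space. -/
def SimL (l : List E) : Prop :=
  ∀ i j : Fin l.length, ¬ Adj (finRotate l.length) i j →
    Disjoint (segment ℝ (l.get i) (l.get (finRotate l.length i)))
      (segment ℝ (l.get j) (l.get (finRotate l.length j)))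

theorem lst_rot_val (n : ℕ) (i : Fin n) : (finRotate n i).val = (i.val + 1) % n := by
  cases n with
  | zero => exact i.elim0
  | succ n =>
    rw [coe_finRotate]
    split_ifs with h
    · rw [h]
      simp
    · have h1 : i.val < n := lt_of_le_of_ne (Nat.le_of_lt_succ i.isLt) fun h2 => h (Fin.ext h2)
      rw [Nat.mod_eq_of_lt (by omega)]

theorem lst_rot_pow (n k : ℕ) (i : Fin n) : (((finRotate n) ^ k) i).val = (i.val + k) % n := by
  induction k with
  | zero =>
    simp only [pow_zero, Equiv.Perm.one_apply, Nat.add_zero]
    rw [Nat.mod_eq_of_lt i.isLt]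
  | succ k ih =>
    rw [pow_succ', Equiv.Perm.mul_apply, lst_rot_val, ih, Nat.mod_add_mod, Nat.add_assoc]

theorem lst_rot_val' {n n' : ℕ} (h : n = n') (i : Fin n) : (finRotate n i).val = (i.val + 1) % n' := by
  subst h
  exact lst_rot_val n i

/-- The edges of the rotated list. -/
def lstE (l : List E) (k : ℕ) : Fin (l.rotate k).length ≃ Fin l.length :=
  (finCongr (List.length_rotate l k)).trans ((finRotate l.length) ^ k)

theorem lstE_val (l : List E) (k : ℕ) (i : Fin (l.rotate k).length) :
    (lstE l k i).val = (i.val + k) % l.length := by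
  unfold lstE
  rw [Equiv.trans_apply, lst_rot_pow]
  rfl

theorem lstE_rot (l : List E) (k : ℕ) (i : Fin (l.rotate k).length) :
    lstE l k (finRotate (l.rotate k).length i) = finRotate l.length (lstE l k i) := by
  refine Fin.ext ?_
  rw [lst_rot_val, lstE_val, lstE_val, lst_rot_val' (List.length_rotate l k), Nat.mod_add_mod,
    Nat.mod_add_mod]
  congr 1
  omega

theorem lstE_get (l : List E) (k : ℕ) (i : Fin (l.rotate k).length) :
    l.get (lstE l k i) = (l.rotate k).get i := by
  rw [List.get_eq_getElem, List.get_eq_getElem, List.getElem_rotate]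
  congr 1
  exact lstE_val l k i

/-- Reindex by i ↦ i + k (Zh_reindex). -/
theorem ZhL_rot (l : List E) (k N : ℕ) : ZhL N (l.rotate k) = ZhL N l := by
  unfold ZhL
  exact (Zh_reindex (lstE l k) (lstE_rot l k) (v := fun i => (l.rotate k).get i)
    (v' := fun i => l.get i) (lstE_get l k) N).1.symm

theorem SimL_rot (l : List E) (k : ℕ) : SimL (l.rotate k) ↔ SimL l := by
  have key : ∀ i, l.get (finRotate l.length (lstE l k i))
      = (l.rotate k).get (finRotate (l.rotate k).length i) := by
    intro i
    rw [← lstE_rot, lstE_get]
  constructor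
  · intro h i' j' hij
    obtain ⟨i, rfl⟩ := (lstE l k).surjective i'
    obtain ⟨j, rfl⟩ := (lstE l k).surjective j'
    rw [rei_adj (lstE l k) (lstE_rot l k)] at hij
    rw [key, key, lstE_get, lstE_get]
    exact h i j hij
  · intro h i j hij
    rw [← rei_adj (lstE l k) (lstE_rot l k)] at hij
    have h1 := h _ _ hij
    rw [key, key, lstE_get, lstE_get] at h1
    exact h1

/-- The edges of the list with one more point. -/
def lstA (l : List E) (B : E) : Option (Fin l.length) ≃ Fin (l ++ [B]).length :=
  (finSuccEquivLast (n := l.length)).symm.trans (finCongr (by simp))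

theorem lstA_none (l : List E) (B : E) : (lstA l B none).val = l.length := by
  unfold lstA
  rw [Equiv.trans_apply, finSuccEquivLast_symm_none]
  rfl

theorem lstA_some (l : List E) (B : E) (i : Fin l.length) : (lstA l B (some i)).val = i.val := by
  unfold lstA
  rw [Equiv.trans_apply, finSuccEquivLast_symm_some]
  rfl

theorem lstA_get (l : List E) (B : E) (x : Option (Fin l.length)) :
    (l ++ [B]).get (lstA l B x) = insV (fun i => l.get i) B x := by
  rw [List.get_eq_getElem]
  cases x with
  | none =>
    have h1 := lstA_none l B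
    simp only [h1, insV, Option.elim_none]
    simp
  | some i =>
    have h1 := lstA_some l B i
    simp only [h1, insV, Option.elim_some]
    rw [List.getElem_append_left i.isLt]
    rfl

theorem lstA_rot (l : List E) (B : E) (i0 : Fin l.length) (h0 : i0.val + 1 = l.length)
    (x : Option (Fin l.length)) :
    lstA l B (insS (finRotate l.length) i0 x) = finRotate (l ++ [B]).length (lstA l B x) := by
  have hlen : (l ++ [B]).length = l.length + 1 := by simp
  refine Fin.ext ?_
  rw [lst_rot_val' hlen]
  cases x with
  | none =>
    rw [rei_none, lstA_some, lstA_none, lst_rot_val, h0, Nat.mod_self, Nat.mod_self]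
  | some i =>
    by_cases h1 : i = i0
    · subst h1
      rw [rei_self, lstA_none, lstA_some, h0, Nat.mod_eq_of_lt (Nat.lt_succ_self _)]
    · have h2 : i.val + 1 < l.length := by
        have h3 := i.isLt
        have h4 : i.val ≠ i0.val := fun h => h1 (Fin.ext h)
        omega
      rw [rei_some h1, lstA_some, lstA_some, lst_rot_val, Nat.mod_eq_of_lt h2,
        Nat.mod_eq_of_lt (by omega)]

/-- Adding a point at the end of the list is the insertion of a vertex on the closing edge (reindex
Option (Fin n) ≃ Fin (n + 1), none ↦ last). -/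
theorem ZhL_append (l : List E) (h : l ≠ []) (B : E) (N : ℕ) :
    ZhL N (l ++ [B]) = Zh (insS (finRotate l.length)
      ⟨l.length - 1, by have := List.length_pos_iff.mpr h; omega⟩) (insV (fun i => l.get i) B) N := by
  unfold ZhL
  exact (Zh_reindex (lstA l B) (lstA_rot l B _ (by
    have := List.length_pos_iff.mpr h
    simp only
    omega)) (v := insV (fun i => l.get i) B) (v' := fun i => (l ++ [B]).get i) (lstA_get l B) N).1

theorem SimL_append (l : List E) (h : l ≠ []) (B : E) :
    SimL (l ++ [B]) ↔ ∀ i j : Option (Fin l.length),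
      ¬ Adj (insS (finRotate l.length)
        ⟨l.length - 1, by have := List.length_pos_iff.mpr h; omega⟩) i j →
      Disjoint (segment ℝ (insV (fun i => l.get i) B i) (insV (fun i => l.get i) B
          (insS (finRotate l.length)
            ⟨l.length - 1, by have := List.length_pos_iff.mpr h; omega⟩ i)))
        (segment ℝ (insV (fun i => l.get i) B j) (insV (fun i => l.get i) B
          (insS (finRotate l.length)
            ⟨l.length - 1, by have := List.length_pos_iff.mpr h; omega⟩ j))) := by
  have hpos := List.length_pos_iff.mpr h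
  set i0 : Fin l.length := ⟨l.length - 1, by omega⟩ with hi0
  have hr := lstA_rot l B i0 (by rw [hi0]; simp only; omega)
  have key : ∀ x, (l ++ [B]).get (finRotate (l ++ [B]).length (lstA l B x))
      = insV (fun i => l.get i) B (insS (finRotate l.length) i0 x) := by
    intro x
    rw [← hr, lstA_get]
  constructor
  · intro h1 i j hij
    rw [← rei_adj (lstA l B) hr] at hij
    have h2 := h1 _ _ hij
    rw [key, key, lstA_get, lstA_get] at h2
    exact h2
  · intro h1 i' j' hij
    obtain ⟨i, rfl⟩ := (lstA l B).surjective i'
    obtain ⟨j, rfl⟩ := (lstA l B).surjective j'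
    rw [rei_adj (lstA l B) hr] at hij
    rw [key, key, lstA_get, lstA_get]
    exact h1 i j hij

end Pool.Agent.Lib.MP_ca0971_gt.OT
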