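import Pool.Agent.Lib.MP_ca0971_gt.OT.Chn.TriL
import Pool.Agent.Lib.MP_ca0971_gt.OT.Chn.Base

/-!
# Project OT, Chn: the state sum of a polygon with a chain
-/

set_option autoImplicit false

namespace Pool.Agent.Lib.MP_ca0971_gt.OT

open Finset Filter Topology

/-- The points of a list without repetitions are a subfamily of F. -/
private theorem cm_gp {W : Type} {F : W → E} (hGP : GP F) {l : List W} (hn : l.Nodup) {L : List E}
    (hL : L = l.map F) : GP fun i : Fin L.length => L.get i := by
  subst hL
  have hlen : (l.map F).length = l.length := by simp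
  have h1 := hGP.comp_inj (fun i : Fin (l.map F).length => l.get ⟨i.val, by
    have := i.isLt
    omega⟩) (by
      intro i j hij
      have h2 := (List.nodup_iff_injective_get.1 hn) hij
      rw [Fin.mk.injEq] at h2
      exact Fin.ext h2)
  have h2 : (fun i : Fin (l.map F).length => (l.map F).get i) =
      F ∘ (fun i : Fin (l.map F).length => l.get ⟨i.val, by
        have := i.isLt
        omega⟩) := by
    funext i
    simp
  rw [h2]
  exact h1

/-- Induction over the chain (the family of the points of a list without repetitions is a subfamily of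
F: GP.comp_inj). -/
theorem chain_Zh {W : Type} {F : W → E} {Q : Set E} {l : List W} (hGP : GP F) (h : Chain F Q l) :
    l.Nodup ∧ 3 ≤ l.length ∧ SimL (l.map F) ∧ ∀ N : ℕ, ZhL N (l.map F) = br N := by
  induction h with
  | base a b c h hQ =>
    refine ⟨h, by simp, sim_three _ _ _, fun N => ZhL_three _ _ _ ?_ N⟩
    simp only [List.nodup_cons, List.mem_cons, List.not_mem_nil, or_false, not_or] at h
    exact hGP.1 a b c h.1.1 h.1.2 h.2.1
  | rot l k h ih =>
    obtain ⟨h1, h2, h3, h4⟩ := ih
    refine ⟨List.nodup_rotate.2 h1, by simpa using h2, ?_, fun N => ?_⟩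
    · rw [List.map_rotate]
      exact (SimL_rot _ _).2 h3
    · rw [List.map_rotate, ZhL_rot]
      exact h4 N
  | del l b h hb ht hQ ih =>
    obtain ⟨h1, h2, h3, h4⟩ := ih
    have hn : (l ++ [b]).Nodup := by
      rw [List.nodup_append]
      refine ⟨h1, by simp, ?_⟩
      intro x hx y hy hxy
      simp only [List.mem_singleton] at hy
      subst hy
      exact hb (hxy ▸ hx)
    have hm : (l ++ [b]).map F = l.map F ++ [F b] := by simp
    have hl : 3 ≤ (l.map F).length := by simpa using h2
    have hg := cm_gp hGP hn hm.symm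
    refine ⟨hn, by simp; omega, ?_, fun N => ?_⟩
    · rw [hm]
      exact (tri_list (l.map F) (F b) hl hg h3 ht 0).2
    · rw [hm, (tri_list (l.map F) (F b) hl hg h3 ht N).1]
      exact h4 N
  | add l b hl3 h ht hQ ih =>
    obtain ⟨h1, h2, h3, h4⟩ := ih
    have hm : (l ++ [b]).map F = l.map F ++ [F b] := by simp
    have hl : 3 ≤ (l.map F).length := by simpa using hl3
    have hg := cm_gp hGP h1 hm.symm
    have h5 : SimL (l.map F) := sim_del (l.map F) (F b) hl hg (hm ▸ h3) ht
    refine ⟨h1.of_append_left, hl3, h5, fun N => ?_⟩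
    rw [← (tri_list (l.map F) (F b) hl hg h5 ht N).1, ← hm]
    exact h4 N

end Pool.Agent.Lib.MP_ca0971_gt.OT
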