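import Pool.Agent.Lib.MP_ca0971_gt.OT.Chn.List

/-!
# Project OT, Chn: the triangle move for lists
-/

set_option autoImplicit false

namespace Pool.Agent.Lib.MP_ca0971_gt.OT

open Finset Filter Topology

private theorem tl_rot {n : ℕ} (i : Fin n) :
    (finRotate n i).val = if i.val + 1 < n then i.val + 1 else 0 := by
  cases n with
  | zero => exact i.elim0
  | succ m =>
    rw [coe_finRotate]
    have hi := i.isLt
    by_cases h : i = Fin.last m
    · subst h
      simp
    · have h2 : i.val ≠ m := fun h3 => h (Fin.ext (by simpa using h3))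
      rw [if_neg h, if_pos (by omega)]

private theorem tl_hull (A B C : E) : segment ℝ A C ⊆ convexHull ℝ {A, B, C} :=
  (convex_convexHull ℝ _).segment_subset (subset_convexHull ℝ _ (by simp))
    (subset_convexHull ℝ _ (by simp))

private theorem tl_col {P Q x : E} (hx : x ∈ segment ℝ P Q) :
    dt (Q.1 - P.1) (x.1 - P.1) = 0 := by
  obtain ⟨a, b, ha, hb, hab, rfl⟩ := hx
  have ha' : a = 1 - b := by linarith
  subst ha'
  simp only [dt, Prod.fst_add, Prod.smul_fst, Complex.sub_re, Complex.sub_im, Complex.add_re,
    Complex.add_im, Complex.real_smul, Complex.mul_re, Complex.mul_im, Complex.ofReal_re,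
    Complex.ofReal_im]
  ring

private theorem tl_data (l : List E) (B : E) (h3 : 3 ≤ l.length)
    (hGP : GP fun i : Fin (l ++ [B]).length => (l ++ [B]).get i) (ht : TriOK l B) :
    (∀ i, finRotate l.length i ≠ i) ∧ (∀ i, finRotate l.length (finRotate l.length i) ≠ i) ∧
    GP (insV (fun i => l.get i) B) ∧
    ∀ j : Fin l.length, j ≠ ⟨l.length - 1, by omega⟩ →
      segment ℝ (l.get j) (l.get (finRotate l.length j)) ∩
        convexHull ℝ {l.get ⟨l.length - 1, by omega⟩, B,
          l.get (finRotate l.length ⟨l.length - 1, by omega⟩)} ⊆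
      {l.get ⟨l.length - 1, by omega⟩, l.get (finRotate l.length ⟨l.length - 1, by omega⟩)} := by
  have hlen : (l ++ [B]).length = l.length + 1 := by simp
  refine ⟨?_, ?_, ?_, ?_⟩
  · intro i h
    have h1 := tl_rot i
    rw [h] at h1
    have hi := i.isLt
    split_ifs at h1 <;> omega
  · intro i h
    have h1 := tl_rot i
    have h2 := tl_rot (finRotate l.length i)
    rw [h] at h2
    have hi := i.isLt
    split_ifs at h1 h2 <;> omega
  · let f : Option (Fin l.length) → Fin (l ++ [B]).length := fun o =>
      o.elim ⟨l.length, by omega⟩ (fun i => ⟨i.val, by have := i.isLt; omega⟩)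
    have hf : Function.Injective f := by
      intro a b hab
      have hab' := congrArg Fin.val hab
      rcases a with _ | a <;> rcases b with _ | b
      · rfl
      · simp only [f, Option.elim] at hab'
        have := b.isLt
        omega
      · simp only [f, Option.elim] at hab'
        have := a.isLt
        omega
      · simp only [f, Option.elim] at hab'
        exact congrArg some (Fin.ext hab')
    have hc := hGP.comp_inj f hf
    have he : insV (fun i => l.get i) B = (fun i : Fin (l ++ [B]).length => (l ++ [B]).get i) ∘ f := by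
      funext o
      rcases o with _ | i
      · simp [insV, f]
      · simp [insV, f]
    rw [he]
    exact hc
  · intro j hj
    have hjlt := j.isLt
    have hj' : j.val ≠ l.length - 1 := fun h => hj (Fin.ext h)
    have hne : l ≠ [] := by
      intro h
      simp [h] at h3
    have hA : l.getLast? = some (l.get ⟨l.length - 1, by omega⟩) := by
      rw [List.getLast?_eq_getElem?, List.getElem?_eq_getElem (by omega)]
      rfl
    have hC : l.head? = some (l.get (finRotate l.length ⟨l.length - 1, by omega⟩)) := by
      have h1 : finRotate l.length ⟨l.length - 1, by omega⟩ = ⟨0, by omega⟩ := by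
        apply Fin.ext
        rw [tl_rot]
        rw [if_neg (by simp only; omega)]
      rw [h1, List.head?_eq_getElem?, List.getElem?_eq_getElem (by omega)]
      rfl
    have h2 : finRotate l.length j = ⟨j.val + 1, by omega⟩ := by
      apply Fin.ext
      rw [tl_rot, if_pos (by omega)]
    refine ht _ _ hA hC (l.get j, l.get (finRotate l.length j)) ?_
    rw [h2, List.mem_iff_getElem]
    refine ⟨j.val, by simp only [List.length_zip, List.length_tail]; omega, ?_⟩
    simp [List.getElem_zip, List.getElem_tail]

/-- Tri0 for σ = finRotate, i0 = last index, A = last point, C = first point. -/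
theorem tri0_list (l : List E) (B : E) (h3 : 3 ≤ l.length)
    (hGP : GP fun i : Fin (l ++ [B]).length => (l ++ [B]).get i) (hs : SimL l) (ht : TriOK l B) :
    Tri0 (finRotate l.length) (fun i => l.get i) ⟨l.length - 1, by omega⟩ B :=
  ⟨(tl_data l B h3 hGP ht).1, (tl_data l B h3 hGP ht).2.1, (tl_data l B h3 hGP ht).2.2.1, hs,
    (tl_data l B h3 hGP ht).2.2.2⟩

theorem tri_list (l : List E) (B : E) (h3 : 3 ≤ l.length)
    (hGP : GP fun i : Fin (l ++ [B]).length => (l ++ [B]).get i) (hs : SimL l) (ht : TriOK l B)
    (N : ℕ) : ZhL N (l ++ [B]) = ZhL N l ∧ SimL (l ++ [B]) := by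
  have hne : l ≠ [] := by
    intro h
    simp [h] at h3
  have h0 := tri0_list l B h3 hGP hs ht
  refine ⟨(ZhL_append l hne B N).trans (tri0 h0 N), (SimL_append l hne B).2 ?_⟩
  intro i j hij
  exact h0.disB i j hij

private theorem tl_del {I : Type} [DecidableEq I] {σ : Equiv.Perm I} {v : I → E}
    {i0 : I} {B : E} (gp : GP v) (s1 : ∀ i, σ i ≠ i)
    (tri : ∀ j, j ≠ i0 → segment ℝ (v j) (v (σ j)) ∩ convexHull ℝ {v i0, B, v (σ i0)} ⊆
      {v i0, v (σ i0)}) (j : I) (hj : ¬ Adj σ i0 j) :
    Disjoint (segment ℝ (v i0) (v (σ i0))) (segment ℝ (v j) (v (σ j))) := by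
  rw [Set.disjoint_left]
  intro x hx hxj
  have h1 : j ≠ i0 := fun h => hj (Or.inl h.symm)
  have h2 : j ≠ σ i0 := fun h => hj (Or.inr (Or.inl h))
  have h3 : i0 ≠ σ j := fun h => hj (Or.inr (Or.inr h))
  have h4 : σ j ≠ σ i0 := fun h => h1 (σ.injective h)
  have h5 := tri j h1 ⟨hxj, tl_hull _ _ _ hx⟩
  have h6 := tl_col hxj
  rcases h5 with h5 | h5
  · rw [h5] at h6
    exact gp.1 j (σ j) i0 (s1 j).symm h1 h3.symm h6
  · rw [Set.mem_singleton_iff] at h5
    rw [h5] at h6
    exact gp.1 j (σ j) (σ i0) (s1 j).symm h2 h4 h6

/-- The other direction: the edge A C is in the triangle, the other edges of l are edges of l ++ [B]; the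
edges not adjacent to the closing edge do not contain A or C (collinear otherwise). -/
theorem sim_del (l : List E) (B : E) (h3 : 3 ≤ l.length)
    (hGP : GP fun i : Fin (l ++ [B]).length => (l ++ [B]).get i) (hs : SimL (l ++ [B]))
    (ht : TriOK l B) : SimL l := by
  have hne : l ≠ [] := by
    intro h
    simp [h] at h3
  obtain ⟨s1, -, gp, tri⟩ := tl_data l B h3 hGP ht
  have hs' := (SimL_append l hne B).1 hs
  have gp' : GP (fun i => l.get i) := gp.comp_inj some (Option.some_injective _)
  intro i j hij
  by_cases hi : i = ⟨l.length - 1, by omega⟩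
  · rw [hi] at hij ⊢
    exact tl_del gp' s1 tri j hij
  · by_cases hj : j = ⟨l.length - 1, by omega⟩
    · rw [hj] at hij ⊢
      refine (tl_del gp' s1 tri i ?_).symm
      intro h
      apply hij
      rcases h with h | h | h
      · exact Or.inl h.symm
      · exact Or.inr (Or.inr h)
      · exact Or.inr (Or.inl h)
    · have key : ∀ k : Fin l.length, k ≠ ⟨l.length - 1, by omega⟩ →
          insS (finRotate l.length) ⟨l.length - 1, by omega⟩ (some k) =
            some (finRotate l.length k) := by
        intro k hk
        rw [insS, Equiv.Perm.mul_apply, Equiv.optionCongr_apply, Option.map_some]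
        refine Equiv.swap_apply_of_ne_of_ne (by simp) ?_
        intro h
        exact hk ((finRotate l.length).injective (Option.some_injective _ h))
      have h1 := hs' (some i) (some j) ?_
      · rw [key i hi, key j hj] at h1
        exact h1
      · intro h
        apply hij
        rcases h with h | h | h
        · exact Or.inl (Option.some_injective _ h)
        · rw [key i hi] at h
          exact Or.inr (Or.inl (Option.some_injective _ h))
        · rw [key j hj] at h
          exact Or.inr (Or.inr (Option.some_injective _ h))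

end Pool.Agent.Lib.MP_ca0971_gt.OT
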